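import Pool.Agent.Helper21.MT10.Stmts

set_option autoImplicit false

namespace MT

theorem st_ADD : ST_DRV → ST_ADD := by
  intro hD K _ _ _ n ε ψ d a hG c hodd hadd
  classical
  refine hD K n ψ a hG.unit hG.brk hG.irr hG.iso _ ?_ ?_
  · ext i j
    rw [Matrix.diagonal_transpose, Matrix.add_apply, Matrix.diagonal_mul, Matrix.mul_diagonal,
      Matrix.zero_apply]
    by_cases h : ψ i j = 0
    · rw [h]; ring
    · have h1 := hG.grad i j h
      have h2 : d i = - d j := by linarith
      have h3 : c (d i) = - c (d j) := by rw [h2, hodd]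
      rw [h3]; push_cast; ring
  · intro A hA
    let g : ℤ → K := fun x =>
      if h : ∃ p : Fin n × Fin n, d p.1 - d p.2 = x then
        ((c (d (Classical.choose h).1) - c (d (Classical.choose h).2) : ℤ) : K) else 0
    have hg : ∀ i j, g (d i - d j) = ((c (d i) - c (d j) : ℤ) : K) := by
      intro i j
      have h : ∃ p : Fin n × Fin n, d p.1 - d p.2 = d i - d j := ⟨(i, j), rfl⟩
      have h2 : g (d i - d j) =
          ((c (d (Classical.choose h).1) - c (d (Classical.choose h).2) : ℤ) : K) := dif_pos h
      rw [h2]
      have h3 := hadd _ _ _ _ (Classical.choose_spec h)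
      rw [h3]
    have e : Matrix.diagonal (fun j => (c (d j) : K)) * A -
        A * Matrix.diagonal (fun j => (c (d j) : K)) =
        ∑ x ∈ (Finset.univ : Finset (Fin n × Fin n)).image (fun p => d p.1 - d p.2),
          g x • cmp d x A := by
      ext i j
      rw [Matrix.sub_apply, Matrix.diagonal_mul, Matrix.mul_diagonal, Matrix.sum_apply]
      have h4 : ∀ x ∈ (Finset.univ : Finset (Fin n × Fin n)).image (fun p => d p.1 - d p.2),
          (g x • cmp d x A) i j = if d i - d j = x then g x * A i j else 0 := by
        intro x _
        rw [Matrix.smul_apply, smul_eq_mul]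
        change g x * (if d i - d j = x then A i j else 0) = _
        by_cases h : d i - d j = x
        · rw [if_pos h, if_pos h]
        · rw [if_neg h, if_neg h, mul_zero]
      rw [Finset.sum_congr rfl h4, Finset.sum_ite_eq, if_pos, hg]
      · push_cast; ring
      · exact Finset.mem_image.2 ⟨(i, j), Finset.mem_univ _, rfl⟩
    rw [e]
    exact Submodule.sum_mem _ fun x _ => Submodule.smul_mem _ _ (hG.comp A hA x)

end MT
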